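import Pool.Agent.Q109.Thr.Ladder

namespace Pool.Agent.Results.MP_86beeb_co.NoInclusion

/-- `G` is a `(-1, 1, t)`-threshold graph, that is, `G` belongs to `C_t`. -/
def InC (t : ℝ) {V : Type} (G : SimpleGraph V) : Prop :=
  ∃ r : V → ℝ, ∀ v w, v ≠ w →
    (G.Adj v w ↔ (-1 ≤ r v + r w ∧ r v + r w < 1) ∨ t ≤ r v + r w)

/-- the pattern -/
def E (t s : ℝ) : Prop := (-1 ≤ s ∧ s < 1) ∨ t ≤ s

theorem E_pat {t : ℝ} (ht : 1 < t) : Q109.Thr.Pat 2 (t - 1) (-1) (E t) where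
  n1 := by
    rintro s hs (h | h)
    · linarith [h.1]
    · linarith
  e1 := by
    intro s h1 h2
    exact Or.inl ⟨h1.le, by linarith⟩
  n2 := by
    rintro s h1 h2 (h | h)
    · linarith [h.2]
    · linarith
  e2 := by
    intro s h
    exact Or.inr (by linarith)

open Filter

/-- If `C_t` is contained in `C_t'` then every finite set of reals has a re-ranking. -/
theorem finite_rank {t t' : ℝ}
    (h : ∀ (n : ℕ) (G : SimpleGraph (Fin n)), InC t G → InC t' G) (X : Finset ℝ) :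
    ∃ ρ : ℝ → ℝ, ∀ x ∈ X, ∀ y ∈ X, x ≠ y → (E t (x + y) ↔ E t' (ρ x + ρ y)) := by
  classical
  let e := X.equivFin
  let p : Fin X.card → ℝ := fun i => (e.symm i : ℝ)
  let G : SimpleGraph (Fin X.card) := SimpleGraph.fromRel (fun i j => E t (p i + p j))
  have hG : InC t G := by
    refine ⟨p, ?_⟩
    intro v w hvw
    have : G.Adj v w ↔ v ≠ w ∧ (E t (p v + p w) ∨ E t (p w + p v)) :=
      SimpleGraph.fromRel_adj _ _ _
    rw [this, add_comm (p w) (p v), or_self]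
    exact ⟨fun h => h.2, fun h => ⟨hvw, h⟩⟩
  obtain ⟨r, hr⟩ := h _ G hG
  refine ⟨fun x => if hx : x ∈ X then r (e ⟨x, hx⟩) else 0, ?_⟩
  intro x hx y hy hxy
  have hne : e ⟨x, hx⟩ ≠ e ⟨y, hy⟩ := fun h => hxy (by simpa using h)
  have h1 := hr _ _ hne
  have h2 : G.Adj (e ⟨x, hx⟩) (e ⟨y, hy⟩) ↔ E t (x + y) := by
    have : G.Adj (e ⟨x, hx⟩) (e ⟨y, hy⟩) ↔ e ⟨x, hx⟩ ≠ e ⟨y, hy⟩ ∧
        (E t (p (e ⟨x, hx⟩) + p (e ⟨y, hy⟩)) ∨ E t (p (e ⟨y, hy⟩) + p (e ⟨x, hx⟩))) :=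
      SimpleGraph.fromRel_adj _ _ _
    rw [this, add_comm (p (e ⟨y, hy⟩)), or_self]
    have p1 : p (e ⟨x, hx⟩) = x := by simp [p]
    have p2 : p (e ⟨y, hy⟩) = y := by simp [p]
    rw [p1, p2]
    exact ⟨fun h => h.2, fun h => ⟨hne, h⟩⟩
  simp only [dif_pos hx, dif_pos hy]
  rw [← h2, h1]
  rfl

theorem eq_of_incl {t t' : ℝ} (ht : 1 < t) (ht' : 1 < t')
    (h : ∀ (n : ℕ) (G : SimpleGraph (Fin n)), InC t G → InC t' G) : t = t' := by
  classical
  choose ρ hρ using finite_rank h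
  let φ : Ultrafilter (Finset ℝ) := Ultrafilter.of atTop
  let K := Germ (φ : Filter (Finset ℝ)) ℝ
  let f : ℝ →+* K := (Germ.coeRingHom (φ : Filter (Finset ℝ))).comp (Pi.constRingHom _ _)
  have hf : StrictMono f := fun a b hab => Germ.const_lt hab
  let r : ℝ → K := fun x => ((fun X => ρ X x : Finset ℝ → ℝ) : Germ (φ : Filter (Finset ℝ)) ℝ)
  have hE : ∀ g : Finset ℝ → ℝ,
      ((-1 : K) ≤ (g : Germ (φ : Filter (Finset ℝ)) ℝ) ∧
        (g : Germ (φ : Filter (Finset ℝ)) ℝ) < (1 : K)) ∨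
        f t' ≤ (g : Germ (φ : Filter (Finset ℝ)) ℝ) ↔
      ∀ᶠ X in (φ : Filter (Finset ℝ)), E t' (g X) := by
    intro g
    unfold E
    rw [Ultrafilter.eventually_or, eventually_and]
    have e1 : ((-1 : K) ≤ (g : Germ (φ : Filter (Finset ℝ)) ℝ)) ↔
        ∀ᶠ X in (φ : Filter (Finset ℝ)), -1 ≤ g X := Germ.coe_le
    have e2 : ((g : Germ (φ : Filter (Finset ℝ)) ℝ) < (1 : K)) ↔
        ∀ᶠ X in (φ : Filter (Finset ℝ)), g X < 1 := Germ.coe_lt
    have e3 : (f t' ≤ (g : Germ (φ : Filter (Finset ℝ)) ℝ)) ↔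
        ∀ᶠ X in (φ : Filter (Finset ℝ)), t' ≤ g X := Germ.coe_le
    rw [e1, e2, e3]
  have hT : Q109.Thr.TRep (E t) r (f t') := by
    constructor
    intro x y hxy
    have h1 : ∀ᶠ X in (φ : Filter (Finset ℝ)), (E t (x + y) ↔ E t' (ρ X x + ρ X y)) := by
      have h2 : ∀ᶠ X in (atTop : Filter (Finset ℝ)), ({x, y} : Finset ℝ) ⊆ X :=
        eventually_ge_atTop ({x, y} : Finset ℝ)
      have h3 : ∀ᶠ X in (φ : Filter (Finset ℝ)), ({x, y} : Finset ℝ) ⊆ X :=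
        (Ultrafilter.of_le atTop) h2
      filter_upwards [h3] with X hX
      exact hρ X x (hX (by simp)) y (hX (by simp)) hxy
    have h2 := hE (fun X => ρ X x + ρ X y)
    have h3 : ((fun X => ρ X x + ρ X y : Finset ℝ → ℝ) : Germ (φ : Filter (Finset ℝ)) ℝ) =
        r x + r y := rfl
    rw [h3] at h2
    rw [h2]
    constructor
    · intro h4
      filter_upwards [h1] with X hX
      exact hX.mp h4
    · intro h4
      obtain ⟨X, hX1, hX2⟩ := (h1.and h4).exists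
      exact hX1.mpr hX2
  have h := Q109.Thr.band_eq f hf ht' hT (E_pat ht) (by linarith)
  linarith

/-- For any two distinct reals `t, t' > 1` there is a finite graph in `C_t` that is not in
`C_t'`. -/
theorem result (t t' : ℝ) (ht : 1 < t) (ht' : 1 < t') (hne : t ≠ t') :
    ∃ (n : ℕ) (G : SimpleGraph (Fin n)), InC t G ∧ ¬ InC t' G := by
  by_contra hcon
  push Not at hcon
  exact hne (eq_of_incl ht ht' hcon)

end Pool.Agent.Results.MP_86beeb_co.NoInclusion
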